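import Mathlib
import Pool.Agent.X267.TC.Bip

/-!
# Extending total colourings from distance-3 matchings in bipartite graphs

`MP_db9399_co`, Q1, asks whether every total-`(Δ+2)`-colouring of a distance-3 matching `M` of a graph
`G` of maximum degree `Δ` extends to a total-`(Δ+2)`-colouring of `G`. Let `G`, or only `G - E(M)`, be
bipartite. We show that

* every total-`(Δ+3)`-colouring of `M` extends to a total-`(Δ+3)`-colouring of `G`;
* a total-`(Δ+2)`-colouring of `M` extends to a total-`(Δ+2)`-colouring of `G` if no two adjacent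
  vertices `x`, `y` of degree `Δ` outside `M` are adjacent to the same edge of `M` or to two edges of
  `M` of the same colour;
* hence every total-`(Δ+2)`-colouring of `M` extends if no two vertices of degree `Δ` are adjacent, and
  also if the edges of `M` have pairwise distance at least four and are in no circuit of length four
  (for instance: girth at least six).

The proof: the neighbours of degree `Δ` of an edge `e` of `M` get the colour of `e`, the other vertices
are coloured greedily; then the edges outside `M` have lists for the theorem of Borodin, Kostochka and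
Woodall.
-/

set_option autoImplicit false

namespace Pool.Agent.Results.MP_db9399_co.BipartiteExtension

open Pool.Agent.X267.TC

/-- no two adjacent vertices `x`, `y` of degree `k` outside `M` have neighbours on the same edge of
`M` or on two edges of `M` of the same colour -/
def NoConflict {V : Type} (G M : SimpleGraph V) (k : ℕ) (c₀ : Sym2 V → ℕ) : Prop :=
  ∀ x y u u' v v', x ∉ M.support → y ∉ M.support → (G.neighborSet x).ncard = k →
    (G.neighborSet y).ncard = k → G.Adj x y → G.Adj x u → M.Adj u u' → G.Adj y v → M.Adj v v' →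
    c₀ s(u, u') ≠ c₀ s(v, v')

theorem dg_maxDegree {V : Type} [Fintype V] (G : SimpleGraph V) [DecidableRel G.Adj] (v : V) :
    Pool.Agent.TH559.LE.dg G v ≤ G.maxDegree := by
  have h : Pool.Agent.TH559.LE.dg G v = G.degree v := by
    unfold Pool.Agent.TH559.LE.dg
    rw [← SimpleGraph.card_neighborFinset_eq_degree, ← Set.ncard_coe_finset]
    congr 1
    ext w
    simp
  rw [h]
  exact G.degree_le_maxDegree v

/-- Let `M` be a distance-3 matching in a finite graph `G` of maximum degree `Δ` such that
`G - E(M)` is bipartite.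
(1) For `k ≥ Δ` every total-`(k+2)`-colouring of `M` without conflicts between adjacent vertices of
degree `k` extends to a total-`(k+2)`-colouring of `G`.
(2) Every total-`(Δ+3)`-colouring of `M` extends to `G`.
(3) If no two vertices of degree `Δ` are adjacent, then every total-`(Δ+2)`-colouring of `M` extends.
(4) The same holds if the edges of `M` have pairwise distance at least four and no edge of `M` is in
a circuit of length four. -/
theorem result (V : Type) [Fintype V] (G : SimpleGraph V) [DecidableRel G.Adj]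
    (M : SimpleGraph V) (hM : DistanceThreeMatching G M) (hbip : (G \ M).IsBipartite) :
    (∀ (k : ℕ) (ψ₀ : V → ℕ) (c₀ : Sym2 V → ℕ), G.maxDegree ≤ k →
      TotalColouring M M.support (k + 2) ψ₀ c₀ → NoConflict G M k c₀ →
      ∃ (ψ : V → ℕ) (c : Sym2 V → ℕ), TotalColouring G Set.univ (k + 2) ψ c ∧
        (∀ v ∈ M.support, ψ v = ψ₀ v) ∧ ∀ e ∈ M.edgeSet, c e = c₀ e) ∧
    AllExtend G M (G.maxDegree + 3) ∧
    ((∀ x y, G.Adj x y → G.degree x = G.maxDegree → G.degree y ≠ G.maxDegree) →
      AllExtend G M (G.maxDegree + 2)) ∧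
    ((∀ x ∈ M.support, ∀ y ∈ M.support, x ≠ y → ¬ M.Adj x y → 4 ≤ G.edist x y) →
      (∀ u v x y, M.Adj u v → G.Adj v x → G.Adj x y → G.Adj y u → x = u ∨ y = v) →
      AllExtend G M (G.maxDegree + 2)) := by
  classical
  obtain ⟨C⟩ := hbip
  have hX : ∀ u v, G.Adj u v → ¬ M.Adj u v → (C u = 0 ↔ ¬ C v = 0) := by
    intro u v huv hn
    have h1 : C u ≠ C v := C.valid ⟨huv, hn⟩
    have h2 : ∀ a b : Fin 2, a ≠ b → (a = 0 ↔ ¬ b = 0) := by decide
    exact h2 _ _ h1
  have hdg : ∀ v, Pool.Agent.TH559.LE.dg G v = (G.neighborSet v).ncard := fun v => rfl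
  have hdeg : ∀ v, (G.neighborSet v).ncard = G.degree v := by
    intro v
    rw [← SimpleGraph.card_neighborFinset_eq_degree, ← Set.ncard_coe_finset]
    congr 1
    ext w
    simp
  have main : ∀ (k : ℕ) (ψ₀ : V → ℕ) (c₀ : Sym2 V → ℕ), G.maxDegree ≤ k →
      TotalColouring M M.support (k + 2) ψ₀ c₀ → NoConflict G M k c₀ →
      ∃ (ψ : V → ℕ) (c : Sym2 V → ℕ), TotalColouring G Set.univ (k + 2) ψ c ∧
        (∀ v ∈ M.support, ψ v = ψ₀ v) ∧ ∀ e ∈ M.edgeSet, c e = c₀ e := by
    intro k ψ₀ c₀ hk h₀ hstar
    have hk' : ∀ v, Pool.Agent.TH559.LE.dg G v ≤ k := fun v => (dg_maxDegree G v).trans hk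
    have h := pre_of (k := k + 1) hM (fun v => (hk' v).trans (Nat.le_succ k)) h₀
    exact assemble (k := k + 1) hM h₀ (bipartite h hk' (fun v => C v = 0) hX hstar)
  refine ⟨main, ?_, ?_, ?_⟩
  · intro ψ₀ c₀ h₀
    refine main (G.maxDegree + 1) ψ₀ c₀ (Nat.le_succ _) h₀ ?_
    intro x y u u' v v' _ _ hx _ _ _ _ _ _
    have h1 := dg_maxDegree G x
    rw [hdg, hx] at h1
    omega
  · intro hno ψ₀ c₀ h₀
    refine main G.maxDegree ψ₀ c₀ le_rfl h₀ ?_
    intro x y u u' v v' _ _ hx hy hxy _ _ _ _
    rw [hdeg] at hx hy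
    exact absurd hy (hno x y hxy hx)
  · intro hfar h4 ψ₀ c₀ h₀
    refine main G.maxDegree ψ₀ c₀ le_rfl h₀ ?_
    intro x y u u' v v' hx hy _ _ hxy hxu huu' hyv hvv' _
    have hu : u ∈ M.support := (SimpleGraph.mem_support M).2 ⟨u', huu'⟩
    have hv : v ∈ M.support := (SimpleGraph.mem_support M).2 ⟨v', hvv'⟩
    by_cases huv : u = v
    · -- a triangle `u x y`: impossible, `G - E(M)` is bipartite
      subst huv
      have n1 : ¬ M.Adj x y := fun h => hx ((SimpleGraph.mem_support M).2 ⟨y, h⟩)
      have n2 : ¬ M.Adj x u := fun h => hx ((SimpleGraph.mem_support M).2 ⟨u, h⟩)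
      have n3 : ¬ M.Adj y u := fun h => hy ((SimpleGraph.mem_support M).2 ⟨u, h⟩)
      have a1 := hX x y hxy n1
      have a2 := hX x u hxu n2
      have a3 := hX y u hyv n3
      tauto
    · by_cases hMuv : M.Adj u v
      · rcases h4 u v y x hMuv hyv.symm hxy.symm hxu with rfl | rfl
        · exact hy hu
        · exact hx hv
      · have h5 := hfar u hu v hv huv hMuv
        have h6 : G.edist u v ≤ ((SimpleGraph.Walk.cons hxu.symm
          (SimpleGraph.Walk.cons hxy hyv.toWalk)).length : ℕ∞) := SimpleGraph.edist_le _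
        have h7 : (4 : ℕ∞) ≤ ((3 : ℕ) : ℕ∞) := h5.trans (by simpa using h6)
        have h8 : (4 : ℕ) ≤ 3 := by exact_mod_cast h7
        omega

end Pool.Agent.Results.MP_db9399_co.BipartiteExtension
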