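import Mathlib
import Pool.Agent.X211.LX.Forb

set_option autoImplicit false

/-!
# Extending total colourings with `Δ + O(log Δ)` colours

Let `G` be any finite simple graph with maximum degree `Δ` and let `H` be any subgraph of `G` with
all degrees at most `t`. If `k ≥ Δ + 1 + 334 (t + 1) log (Δ + 1)`, then every total-`k`-colouring
of `H` which is proper with respect to `G` extends to a total-`k`-colouring of `G`. For matchings
`H` (`t = 1`) this is Q1 with `Δ + O(log Δ)` in place of `Δ + 2` colours, for all graphs, and
without any condition on the distance.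

Proof. Extend the vertex colouring greedily. Colour the other edges properly with `Δ + 1` colours
(Vizing) and randomise this colouring by flipping random short Kempe chains (Lovász local lemma;
the theorem on random Kempe flips of the starting library, with the vertex colours and the colours
of the precoloured edges as tests). After the removal of `O(log Δ)` edges at every vertex the
remaining edges avoid the colours of their ends and of the precoloured edges at their ends, except
for `O(t log Δ)` further edges at every vertex. The exceptional edges are coloured greedily with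
the new colours `Δ + 1, …, k - 1`.
-/

namespace Pool.Agent.Results.MP_db9399_co.LogarithmicColours

/-- The vertex colours `c` and the edge colours `f` form a total-`k`-colouring of `G` (with the
colours `0, …, k - 1`): adjacent vertices get different colours, edges with a common end get
different colours, and the colour of an edge differs from those of both its ends. -/
def TotalColouring {V : Type} (G : SimpleGraph V) (k : ℕ) (c : V → ℕ) (f : Sym2 V → ℕ) : Prop :=
  (∀ u v, G.Adj u v → c u ≠ c v) ∧
  (∀ u v w, G.Adj u v → G.Adj u w → v ≠ w → f s(u, v) ≠ f s(u, w)) ∧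
  (∀ u v, G.Adj u v → f s(u, v) ≠ c u) ∧
  (∀ v, c v < k) ∧ ∀ e ∈ G.edgeSet, f e < k

/-- `(c, f)` is a total-`k`-colouring of the subgraph `H` of `G` which is proper with respect to
`G`: only the values of `c` at the vertices of `H` and of `f` at the edges of `H` matter; vertices
of `H` which are adjacent in `G` get different colours, edges of `H` with a common end get
different colours, and the colour of an edge of `H` differs from those of both its ends. -/
def PartialTotalColouring {V : Type} {G : SimpleGraph V} (H : G.Subgraph) (k : ℕ) (c : V → ℕ)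
    (f : Sym2 V → ℕ) : Prop :=
  (∀ u ∈ H.verts, ∀ v ∈ H.verts, G.Adj u v → c u ≠ c v) ∧
  (∀ u v w, H.Adj u v → H.Adj u w → v ≠ w → f s(u, v) ≠ f s(u, w)) ∧
  (∀ u v, H.Adj u v → f s(u, v) ≠ c u) ∧
  (∀ v ∈ H.verts, c v < k) ∧ ∀ e ∈ H.edgeSet, f e < k

/-- **Extension of total colourings with `Δ + O(log Δ)` colours.**  Let `G` be a finite graph with
maximum degree `Δ`, let `H` be a subgraph of `G` with all degrees at most `t` (`t = 1` for a
matching) and let `k ≥ Δ + 1 + 334 (t + 1) log (Δ + 1)`. Then every total-`k`-colouring
`(c₀, f₀)` of `H` which is proper with respect to `G` extends to a total-`k`-colouring of `G`. -/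
theorem result (V : Type) [Fintype V] (G : SimpleGraph V) [DecidableRel G.Adj] (t : ℕ)
    (H : G.Subgraph) (ht : ∀ v, (H.neighborSet v).ncard ≤ t) (k : ℕ)
    (hk : (G.maxDegree : ℝ) + 1 + 334 * (t + 1) * Real.log (G.maxDegree + 1) ≤ k)
    (c₀ : V → ℕ) (f₀ : Sym2 V → ℕ) (h0 : PartialTotalColouring H k c₀ f₀) :
    ∃ (c : V → ℕ) (f : Sym2 V → ℕ), TotalColouring G k c f ∧
      (∀ v ∈ H.verts, c v = c₀ v) ∧ ∀ e ∈ H.edgeSet, f e = f₀ e := by
  classical
  obtain ⟨h1, h2, h3, h4, h5⟩ := h0
  have hlog : 0 ≤ Real.log ((G.maxDegree : ℝ) + 1) :=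
    Real.log_nonneg (by have : (0 : ℝ) ≤ G.maxDegree := Nat.cast_nonneg _; linarith)
  have hk1 : G.maxDegree + 1 ≤ k := by
    have : (0 : ℝ) ≤ 334 * (t + 1) * Real.log ((G.maxDegree : ℝ) + 1) := by positivity
    have h : ((G.maxDegree + 1 : ℕ) : ℝ) ≤ k := by
      push_cast
      linarith
    exact_mod_cast h
  have hdeg : ∀ v, (G.neighborSet v).ncard ≤ G.maxDegree := by
    intro v
    rw [← Nat.card_coe_set_eq, Nat.card_eq_fintype_card, SimpleGraph.card_neighborSet_eq_degree]
    exact G.degree_le_maxDegree v
  obtain ⟨c, hc1, hc2, hc3⟩ := Pool.Agent.X211.LX.greedy_list G (fun _ => Finset.range k) H.verts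
    c₀ h1 (fun v _ => by
      rw [Finset.card_range]
      exact lt_of_le_of_lt (hdeg v) (by omega))
  have hck : ∀ v, c v < k := by
    intro v
    by_cases hv : v ∈ H.verts
    · rw [hc1 v hv]
      exact h4 v hv
    · exact Finset.mem_range.1 (hc2 v hv)
  let T : V → Finset ℕ := fun v => insert (c v) ((H.neighborSet v).toFinset.image
    fun u => f₀ s(v, u))
  have hT : ∀ v, (T v).card ≤ t + 1 := by
    intro v
    refine (Finset.card_insert_le _ _).trans (Nat.succ_le_succ ?_)
    refine Finset.card_image_le.trans ?_
    rw [← Set.ncard_eq_toFinset_card']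
    exact ht v
  have hTe : ∀ u v, H.Adj u v → f₀ s(u, v) ∈ T u := by
    intro u v h
    refine Finset.mem_insert_of_mem (Finset.mem_image.2 ⟨v, ?_, rfl⟩)
    rw [Set.mem_toFinset]
    exact h
  obtain ⟨f, hf1, hf2⟩ := Pool.Agent.X211.LX.forb (G \ H.spanningCoe) G.maxDegree (t + 1) 0 k
    (fun v => (Set.ncard_le_ncard (fun u hu => by
      rw [SimpleGraph.mem_neighborSet, SimpleGraph.sdiff_adj] at hu
      exact hu.1) (Set.toFinite _)).trans (hdeg v))
    T hT (fun _ => ∅) (fun _ _ _ => by simp) (by omega) (by
      push_cast
      rw [add_zero]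
      exact hk)
  have hsd : ∀ u v, G.Adj u v → ¬ H.Adj u v → (G \ H.spanningCoe).Adj u v := by
    intro u v h h'
    rw [SimpleGraph.sdiff_adj]
    exact ⟨h, h'⟩
  refine ⟨c, fun e => if e ∈ H.edgeSet then f₀ e else f e, ⟨hc3, ?_, ?_, hck, ?_⟩, hc1, ?_⟩
  · intro u v w huv huw hvw
    by_cases g1 : H.Adj u v
    · by_cases g2 : H.Adj u w
      · simp only [SimpleGraph.Subgraph.mem_edgeSet, if_pos g1, if_pos g2]
        exact h2 u v w g1 g2 hvw
      · simp only [SimpleGraph.Subgraph.mem_edgeSet, if_pos g1, if_neg g2]
        intro h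
        exact (hf1 u w (hsd u w huw g2)).2.2 (h ▸ hTe u v g1)
    · by_cases g2 : H.Adj u w
      · simp only [SimpleGraph.Subgraph.mem_edgeSet, if_neg g1, if_pos g2]
        intro h
        exact (hf1 u v (hsd u v huv g1)).2.2 (h ▸ hTe u w g2)
      · simp only [SimpleGraph.Subgraph.mem_edgeSet, if_neg g1, if_neg g2]
        exact hf2 u v w (hsd u v huv g1) (hsd u w huw g2) hvw
  · intro u v huv
    by_cases g1 : H.Adj u v
    · simp only [SimpleGraph.Subgraph.mem_edgeSet, if_pos g1]
      rw [hc1 u (H.edge_vert g1)]
      exact h3 u v g1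
    · simp only [SimpleGraph.Subgraph.mem_edgeSet, if_neg g1]
      intro h
      apply (hf1 u v (hsd u v huv g1)).2.2
      rw [h]
      exact Finset.mem_insert_self _ _
  · intro e
    induction e using Sym2.ind with
    | _ u v =>
      intro huv
      rw [SimpleGraph.mem_edgeSet] at huv
      by_cases g1 : H.Adj u v
      · simp only [SimpleGraph.Subgraph.mem_edgeSet, if_pos g1]
        exact h5 _ (SimpleGraph.Subgraph.mem_edgeSet.2 g1)
      · simp only [SimpleGraph.Subgraph.mem_edgeSet, if_neg g1]
        exact (hf1 u v (hsd u v huv g1)).1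
  · intro e he
    simp only [if_pos he]

end Pool.Agent.Results.MP_db9399_co.LogarithmicColours
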