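import Mathlib
import Pool.Agent.X267.TC.Sparse
import Pool.Agent.X267.TC.Final

/-!
# Extending total colourings from distance-3 matchings in sparse graphs of large maximum degree

`MP_db9399_co`, Q1, asks whether every total-`(Δ+2)`-colouring of a distance-3 matching of a graph
`G` of maximum degree `Δ` extends to a total-`(Δ+2)`-colouring of `G`. This is proved here for all
graphs `G` such that every subgraph with `m` vertices (none of them isolated) has at most `s m`
edges, and `Δ ≥ 4 s² + 6 s`; for instance for all `s`-degenerate graphs with `Δ ≥ 4 s² + 6 s`. If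
`Δ ≥ 4 s² + 6 s + 1`, one colour less suffices: every total-`(Δ+1)`-colouring of the matching
extends to a total-`(Δ+1)`-colouring of `G`. (Known: planar graphs with `Δ ≥ 27`.)

Proof. A subgraph `K` of `G - E(M)` which is minimal without a suitable colouring contains no vertex
of degree at most `q = 2 s` with a neighbour of degree less than `k - q` (colour the edge last), and
no set `X` of vertices of degree at most `q` outside the matching such that every neighbour of `X`
has at least `q` neighbours in `X` (colour the edges at `X` last, with the theorem of Borodin,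
Kostochka and Woodall on list edge colourings of bipartite graphs, and then recolour `X`). Hence the
number of vertices of degree at most `q` outside the matching is at most `q - 1` times the number of
vertices of degree at least `k - q`; and at most two vertices of degree at most `q` of the matching
are adjacent to a given vertex. A count of the edges gives a contradiction.
-/

set_option autoImplicit false

namespace Pool.Agent.Results.MP_db9399_co.SparseGraphs

open Pool.Agent.X267.TC

/-- every subgraph of `G` has at most `s` times as many edges as (non-isolated) vertices -/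
def Sparse {V : Type} (G : SimpleGraph V) (s : ℕ) : Prop :=
  ∀ K : SimpleGraph V, K ≤ G → K.edgeSet.ncard ≤ s * K.support.ncard

theorem dg_maxDegree {V : Type} [Fintype V] (G : SimpleGraph V) [DecidableRel G.Adj] (v : V) :
    Pool.Agent.TH559.LE.dg G v ≤ G.maxDegree := by
  have h : Pool.Agent.TH559.LE.dg G v = G.degree v := by
    unfold Pool.Agent.TH559.LE.dg
    rw [← SimpleGraph.card_neighborFinset_eq_degree, ← Set.ncard_coe_finset]
    congr 1
    ext w
    simp
  rw [h]
  exact G.degree_le_maxDegree v

/-- Let `s ≥ 1` and let `G` be a finite graph of maximum degree `Δ` all whose subgraphs have at most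
`s` times as many edges as vertices, and let `M` be a distance-3 matching in `G`.
(1) If `Δ ≥ 4 s² + 6 s`, then every total-`(Δ+2)`-colouring of `M` extends to `G`.
(2) If `Δ ≥ 4 s² + 6 s + 1`, then every total-`(Δ+1)`-colouring of `M` extends to `G`.
(3) More generally, if `k ≥ Δ` and `k ≥ 4 s² + 6 s + 1`, then every total-`(k+1)`-colouring of `M`
extends to `G`. -/
theorem result (V : Type) [Fintype V] (G : SimpleGraph V) [DecidableRel G.Adj] (s : ℕ)
    (hs : 1 ≤ s) (hG : Sparse G s) (M : SimpleGraph V) (hM : DistanceThreeMatching G M) :
    (4 * s ^ 2 + 6 * s ≤ G.maxDegree → AllExtend G M (G.maxDegree + 2)) ∧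
    (4 * s ^ 2 + 6 * s + 1 ≤ G.maxDegree → AllExtend G M (G.maxDegree + 1)) ∧
    (∀ k : ℕ, G.maxDegree ≤ k → 4 * s ^ 2 + 6 * s + 1 ≤ k → AllExtend G M (k + 1)) := by
  have main : ∀ k : ℕ, G.maxDegree ≤ k → 4 * s ^ 2 + 6 * s + 1 ≤ k → AllExtend G M (k + 1) := by
    intro k hΔ hk ψ₀ c₀ h₀
    exact assemble hM h₀ (sparse (pre_of hM (fun v => (dg_maxDegree G v).trans hΔ) h₀) s hs hG hk)
  refine ⟨fun h => ?_, fun h => main _ le_rfl h, main⟩
  exact main (G.maxDegree + 1) (Nat.le_succ _) (by omega)

end Pool.Agent.Results.MP_db9399_co.SparseGraphs
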