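import Mathlib
import Pool.Agent.X211.TE.Final

set_option autoImplicit false

/-!
# Extending total colourings from distance-3 matchings: sparse graphs

Let `G` be a finite simple graph with all degrees at most `D` and maximum average degree at most
`a`, where `102 a (1 + log D) ≤ D`. Then for every distance-3 matching `H` in `G` and every
`k ≥ D + 1`, every total-`k`-colouring of `H` extends to a total-`k`-colouring of `G`. For
`k = D + 2` this is Q1 for these graphs.

More generally, instead of a distance-3 matching one can take any set `P` of vertices such that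
every vertex of `G` has at most `t` neighbours in `P`, where `34 (1 + t) a (1 + log D) ≤ D`: every
proper total colouring of the induced subgraph `G[P]` extends to a proper total colouring of `G`,
and the colours of the other vertices and edges may be prescribed up to arbitrary lists of `D + 1`
colours.
-/

namespace Pool.Agent.Results.MP_db9399_co.SparseLists

/-- The vertex colours `c` and the edge colours `f` form a proper total colouring of `G`: adjacent
vertices get different colours, edges with a common end get different colours, and the colour of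
an edge differs from those of both its ends. -/
def Proper {V : Type} (G : SimpleGraph V) (c : V → ℕ) (f : Sym2 V → ℕ) : Prop :=
  (∀ u v, G.Adj u v → c u ≠ c v) ∧
  (∀ u v w, G.Adj u v → G.Adj u w → v ≠ w → f s(u, v) ≠ f s(u, w)) ∧
  (∀ u v, G.Adj u v → f s(u, v) ≠ c u)

/-- `(c, f)` is a total-`k`-colouring of `G` (with the colours `0, …, k - 1`). -/
def TotalColouring {V : Type} (G : SimpleGraph V) (k : ℕ) (c : V → ℕ) (f : Sym2 V → ℕ) : Prop :=
  Proper G c f ∧ (∀ v, c v < k) ∧ ∀ e ∈ G.edgeSet, f e < k

/-- `(c, f)` is a total-`k`-colouring of the subgraph `H` of `G`; only the values of `c` at the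
vertices of `H` and of `f` at the edges of `H` matter. -/
def TotalColouringOn {V : Type} {G : SimpleGraph V} (H : G.Subgraph) (k : ℕ) (c : V → ℕ)
    (f : Sym2 V → ℕ) : Prop :=
  (∀ u v, H.Adj u v → c u ≠ c v) ∧
  (∀ u v w, H.Adj u v → H.Adj u w → v ≠ w → f s(u, v) ≠ f s(u, w)) ∧
  (∀ u v, H.Adj u v → f s(u, v) ≠ c u) ∧
  (∀ v ∈ H.verts, c v < k) ∧ ∀ e ∈ H.edgeSet, f e < k

/-- `H` is a distance-3 matching in `G`: every vertex of `H` lies in exactly one edge of `H`, and
two vertices of `H` which are not joined by an edge of `H` (that is, vertices in different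
components of `H`) are equal or have distance at least `3` in `G`. -/
def DistanceThreeMatching {V : Type} {G : SimpleGraph V} (H : G.Subgraph) : Prop :=
  H.IsMatching ∧
    ∀ u ∈ H.verts, ∀ v ∈ H.verts, u ≠ v → ¬ H.Adj u v → 3 ≤ G.edist u v

/-- The maximum average degree of `G` is at most `a`: every set `X` of vertices spans at most
`a * |X|` ordered pairs of adjacent vertices, i.e. at most `a * |X| / 2` edges. -/
def MadLe {V : Type} (G : SimpleGraph V) (a : ℝ) : Prop :=
  ∀ X : Finset V, ({e : V × V | e.1 ∈ X ∧ e.2 ∈ X ∧ G.Adj e.1 e.2}.ncard : ℝ) ≤ a * X.card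

/-- (1) Let all degrees of `G` be at most `D`, let the maximum average degree of `G` be at most
`a` and `102 * a * (1 + log D) ≤ D`. Then every total-`k`-colouring, `k ≥ D + 1`, of every
distance-3 matching `H` in `G` extends to a total-`k`-colouring of `G`.

(2) Let all degrees of `G` be at most `D`, let the maximum average degree of `G` be at most `a`,
let `P` be a set of vertices such that every vertex of `G` has at most `t` neighbours in `P`, and
let `34 * (1 + t) * a * (1 + log D) ≤ D`. Let every vertex `v` outside `P` have a list `M v` and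
every edge with an end outside `P` a list `L e`, of at least `D + 1` colours each. Then every
proper total colouring `(c₀, f₀)` of the subgraph of `G` induced by `P` (with any colours) extends
to a proper total colouring of `G` which takes its other colours from the lists. -/
theorem result :
    (∀ (V : Type) [Fintype V] (G : SimpleGraph V) (D : ℕ) (a : ℝ),
      (∀ v, (G.neighborSet v).ncard ≤ D) → MadLe G a → 102 * a * (1 + Real.log D) ≤ D →
      ∀ (H : G.Subgraph), DistanceThreeMatching H →
      ∀ (k : ℕ), D + 1 ≤ k → ∀ (c₀ : V → ℕ) (f₀ : Sym2 V → ℕ), TotalColouringOn H k c₀ f₀ →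
        ∃ (c : V → ℕ) (f : Sym2 V → ℕ), TotalColouring G k c f ∧
          (∀ v ∈ H.verts, c v = c₀ v) ∧ ∀ e ∈ H.edgeSet, f e = f₀ e) ∧
    (∀ (V : Type) [Fintype V] (G : SimpleGraph V) (D t : ℕ) (a : ℝ),
      (∀ v, (G.neighborSet v).ncard ≤ D) → MadLe G a →
      34 * (1 + t) * a * (1 + Real.log D) ≤ D →
      ∀ (P : Set V), (∀ v, (G.neighborSet v ∩ P).ncard ≤ t) →
      ∀ (M : V → Finset ℕ) (L : Sym2 V → Finset ℕ),
        (∀ v, v ∉ P → D + 1 ≤ (M v).card) →
        (∀ u v, G.Adj u v → u ∉ P → D + 1 ≤ (L s(u, v)).card) →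
      ∀ (c₀ : V → ℕ) (f₀ : Sym2 V → ℕ),
        (∀ u v, u ∈ P → v ∈ P → G.Adj u v → c₀ u ≠ c₀ v ∧ f₀ s(u, v) ≠ c₀ u) →
        (∀ u v w, u ∈ P → v ∈ P → w ∈ P → G.Adj u v → G.Adj u w → v ≠ w →
          f₀ s(u, v) ≠ f₀ s(u, w)) →
        ∃ (c : V → ℕ) (f : Sym2 V → ℕ), Proper G c f ∧ (∀ v ∈ P, c v = c₀ v) ∧
          (∀ v, v ∉ P → c v ∈ M v) ∧
          (∀ u v, u ∈ P → v ∈ P → G.Adj u v → f s(u, v) = f₀ s(u, v)) ∧
          (∀ u v, G.Adj u v → u ∉ P → f s(u, v) ∈ L s(u, v))) := by
  have h2 := fun (V : Type) [Fintype V] (G : SimpleGraph V) (D t : ℕ) (a : ℝ)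
    (hD : ∀ v, (G.neighborSet v).ncard ≤ D) (hmad : MadLe G a)
    (ha : 34 * (1 + t) * a * (1 + Real.log D) ≤ D) =>
    Pool.Agent.X211.TE.list_ext V G D t a hD hmad ha
  refine ⟨?_, h2⟩
  intro V _ G D a hD hmad ha H hH k hk c₀ f₀ h0
  obtain ⟨hadj, hnb⟩ := Pool.Agent.X211.TE.two_nbrs G H hH.1 hH.2
  obtain ⟨c, f, hp, hc1, hc2, hf1, hf2⟩ := h2 V G D 2 a hD hmad (by
      push_cast
      linarith) H.verts hnb (fun _ => Finset.range k) (fun _ => Finset.range k)
    (fun _ _ => by rwa [Finset.card_range]) (fun _ _ _ _ => by rwa [Finset.card_range]) c₀ f₀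
    (fun u v hu hv huv => ⟨h0.1 u v (hadj u v hu hv huv), h0.2.2.1 u v (hadj u v hu hv huv)⟩)
    (fun u v w hu hv hw huv huw hvw =>
      h0.2.1 u v w (hadj u v hu hv huv) (hadj u w hu hw huw) hvw)
  have hv1 : ∀ v ∈ H.verts, c v < k := by
    intro v hv
    rw [hc1 v hv]
    exact h0.2.2.2.1 v hv
  have he1 : ∀ e ∈ H.edgeSet, f e = f₀ e := by
    intro e
    induction e using Sym2.ind with
    | _ x y =>
      intro he
      rw [SimpleGraph.Subgraph.mem_edgeSet] at he
      exact hf1 x y (H.edge_vert he) (H.edge_vert he.symm) (H.adj_sub he)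
  refine ⟨c, f, ⟨hp, ?_, ?_⟩, hc1, he1⟩
  · intro v
    by_cases hv : v ∈ H.verts
    · exact hv1 v hv
    · exact Finset.mem_range.1 (hc2 v hv)
  · intro e
    induction e using Sym2.ind with
    | _ x y =>
      intro he
      rw [SimpleGraph.mem_edgeSet] at he
      by_cases hx : x ∈ H.verts
      · by_cases hy : y ∈ H.verts
        · have h3 : s(x, y) ∈ H.edgeSet := (SimpleGraph.Subgraph.mem_edgeSet).2 (hadj x y hx hy he)
          rw [he1 _ h3]
          exact h0.2.2.2.2 _ h3
        · have h3 := Finset.mem_range.1 (hf2 y x he.symm hy)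
          rwa [Sym2.eq_swap] at h3
      · exact Finset.mem_range.1 (hf2 x y he hx)

end Pool.Agent.Results.MP_db9399_co.SparseLists
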